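import Mathlib

set_option autoImplicit false

/-!
# Covering null sets of reals by rational intervals
-/

namespace Pool.Agent.W5h81.Loc

open Set MeasureTheory ENNReal

theorem exists_cover {E : Set ℝ} (hE : volume E = 0) {ε : ℝ≥0∞} (hε : ε ≠ 0) :
    ∃ a b : ℕ → ℚ, E ⊆ ⋃ j, Ioo (a j : ℝ) (b j) ∧
      ∑' j, volume (Ioo (a j : ℝ) (b j)) ≤ ε := by
  rw [Real.volume_eq_stieltjes_id, StieltjesFunction.measure] at hE
  have hE' : StieltjesFunction.id.outer E = 0 := hE
  have hε2 : ε / 2 ≠ 0 := (ENNReal.half_pos hε).ne'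
  have h1 : StieltjesFunction.id.outer E < ε / 2 := by
    rw [hE']; exact pos_iff_ne_zero.2 hε2
  rw [StieltjesFunction.outer, OuterMeasure.ofFunction_apply] at h1
  simp only [iInf_lt_iff] at h1
  obtain ⟨t, ht, hsum⟩ := h1
  obtain ⟨δ, hδ, hδs⟩ := ENNReal.exists_pos_sum_of_countable hε2 ℕ
  have step : ∀ j, ∃ p q : ℚ, t j ⊆ Ioo (p : ℝ) q ∧
      volume (Ioo (p : ℝ) q) ≤ StieltjesFunction.id.length (t j) + δ j := by
    intro j
    have hfin : StieltjesFunction.id.length (t j) ≠ ∞ :=
      ((ENNReal.le_tsum j).trans_lt (hsum.trans_le le_top)).ne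
    have hδ3 : ((δ j / 3 : NNReal) : ℝ≥0∞) ≠ 0 := by
      have := hδ j
      simp only [ne_eq, ENNReal.coe_eq_zero]
      positivity
    have hl := ENNReal.lt_add_right hfin hδ3
    conv at hl =>
      lhs
      rw [StieltjesFunction.length_eq]
    simp only [iInf_lt_iff] at hl
    obtain ⟨a, b, h1, h2⟩ := hl
    have hbot : (botSet : Set ℝ) = ∅ := by
      ext x
      simp [botSet, not_isBot]
    have hpos : (0 : ℝ) < δ j / 3 := by
      have := hδ j
      positivity
    obtain ⟨p, hp1, hp2⟩ := exists_rat_btwn (show a - δ j / 3 < a by linarith)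
    obtain ⟨q, hq1, hq2⟩ := exists_rat_btwn (show b < b + δ j / 3 by linarith)
    refine ⟨p, q, ?_, ?_⟩
    · intro x hx
      have := h1 ⟨hx, by rw [hbot]; exact fun h => h⟩
      exact ⟨by linarith [this.1], by linarith [this.2]⟩
    · rw [Real.volume_Ioo]
      calc ENNReal.ofReal ((q : ℝ) - p) ≤ ENNReal.ofReal ((b - a) + (δ j / 3 + δ j / 3)) :=
            ENNReal.ofReal_le_ofReal (by linarith)
        _ ≤ ENNReal.ofReal (b - a) + ENNReal.ofReal (δ j / 3 + δ j / 3) := ENNReal.ofReal_add_le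
        _ ≤ (StieltjesFunction.id.length (t j) + ((δ j / 3 : NNReal) : ℝ≥0∞)) +
            ENNReal.ofReal (δ j / 3 + δ j / 3) := by
          gcongr
          exact h2.le
        _ = StieltjesFunction.id.length (t j) + δ j := by
          rw [add_assoc]
          congr 1
          rw [← ENNReal.ofReal_coe_nnreal, ← ENNReal.ofReal_coe_nnreal,
            ← ENNReal.ofReal_add (by positivity) (by positivity)]
          congr 1
          push_cast
          ring
  choose a b hab hvol using step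
  refine ⟨a, b, ht.trans (iUnion_mono hab), ?_⟩
  calc ∑' j, volume (Ioo (a j : ℝ) (b j))
      ≤ ∑' j, (StieltjesFunction.id.length (t j) + δ j) := ENNReal.tsum_le_tsum hvol
    _ = ∑' j, StieltjesFunction.id.length (t j) + ∑' j, (δ j : ℝ≥0∞) := ENNReal.tsum_add
    _ ≤ ε / 2 + ε / 2 := add_le_add hsum.le hδs.le
    _ = ε := ENNReal.add_halves ε

/-- The finite union of open intervals with rational end points coded by `m`. -/
def Op (m : ℕ) : Set ℝ :=
  match (Encodable.decode m : Option (List (ℚ × ℚ))) with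
  | none => ∅
  | some l => ⋃ r ∈ l, Ioo (r.1 : ℝ) r.2

theorem Op_encode (l : List (ℚ × ℚ)) :
    Op (Encodable.encode l) = ⋃ r ∈ l, Ioo (r.1 : ℝ) r.2 := by
  simp only [Op, Encodable.encodek]

theorem isOpen_Op (m : ℕ) : IsOpen (Op m) := by
  unfold Op
  split
  · exact isOpen_empty
  · exact isOpen_biUnion fun r _ => isOpen_Ioo

/-- The bound for the measure of the `n`-th open set. -/
noncomputable def del (n : ℕ) : ℝ≥0∞ := (1 / 2) ^ (n + 2) / (n + 1)

theorem del_ne_zero (n : ℕ) : del n ≠ 0 := by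
  unfold del
  simp only [ne_eq, ENNReal.div_eq_zero_iff, not_or]
  refine ⟨?_, ?_⟩
  · simp
  · exact ENNReal.add_ne_top.2 ⟨ENNReal.natCast_ne_top n, ENNReal.one_ne_top⟩

open Classical in
/-- The `m`-th open set of measure at most `del n`. -/
noncomputable def C (n m : ℕ) : Set ℝ := if volume (Op m) ≤ del n then Op m else ∅

theorem isOpen_C (n m : ℕ) : IsOpen (C n m) := by
  unfold C
  split
  · exact isOpen_Op m
  · exact isOpen_empty

theorem volume_C (n m : ℕ) : volume (C n m) ≤ del n := by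
  unfold C
  split
  · assumption
  · simp

theorem exists_C_cover {E : Set ℝ} (hE : volume E = 0) (k : ℕ) :
    ∃ f : ℕ → ℕ, ∀ z ∈ E, ∃ i, k ≤ i ∧ z ∈ C i (f i) := by
  obtain ⟨a, b, hab, hsum⟩ := exists_cover hE (del_ne_zero k)
  set w : ℕ → ℝ≥0∞ := fun j => volume (Ioo (a j : ℝ) (b j)) with hw
  have hfin : ∑' j, w j ≠ ∞ := by
    refine ne_top_of_le_ne_top ?_ hsum
    unfold del
    exact ENNReal.div_ne_top (by simp) (by simp)
  have htail : ∀ i, ∃ K, ∀ K' ≥ K, ∑' j, w (j + K') ≤ del i := by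
    intro i
    have := ENNReal.tendsto_sum_nat_add w hfin
    have h := (this.eventually (ge_mem_nhds (pos_iff_ne_zero.2 (del_ne_zero i)))).exists_forall_of_atTop
    exact h
  choose K0 hK0 using htail
  -- the starting points of the blocks
  set K : ℕ → ℕ := fun i => if i ≤ k then 0 else i + ∑ i' ∈ Finset.range (i + 1), K0 i' with hK
  have hKk : K k = 0 := by simp [hK]
  have hKi : ∀ i, k < i → i ≤ K i ∧ K0 i ≤ K i := by
    intro i hi
    have : K i = i + ∑ i' ∈ Finset.range (i + 1), K0 i' := by simp [hK, not_le.2 hi]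
    rw [this]
    have h2 : K0 i ≤ ∑ i' ∈ Finset.range (i + 1), K0 i' :=
      Finset.single_le_sum (f := K0) (fun _ _ => Nat.zero_le _) (by simp)
    omega
  have hblock : ∀ i ≥ k, ∑' j, w (j + K i) ≤ del i := by
    intro i hi
    rcases hi.eq_or_lt with rfl | hi
    · rw [hKk]
      simpa using hsum
    · exact hK0 i _ (hKi i hi).2
  have hfind : ∀ n, k ≤ n → ∀ j < K n, ∃ i ≥ k, K i ≤ j ∧ j < K (i + 1) := by
    intro n hn
    induction n, hn using Nat.le_induction with
    | base => intro j hj; rw [hKk] at hj; exact absurd hj (Nat.not_lt_zero _)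
    | succ n hn ih =>
      intro j hj
      rcases lt_or_ge j (K n) with h | h
      · exact ih j h
      · exact ⟨n, hn, h, hj⟩
  refine ⟨fun i => Encodable.encode ((List.range (K (i + 1))).filterMap fun j =>
    if K i ≤ j then some (a j, b j) else none), fun z hz => ?_⟩
  obtain ⟨j, hj⟩ := mem_iUnion.1 (hab hz)
  obtain ⟨i, hik, h1, h2⟩ := hfind (max k (j + 1) + 1) (by omega) j (by
    have := (hKi (max k (j + 1) + 1) (by omega)).1
    omega)
  refine ⟨i, hik, ?_⟩
  have hOp : Op (Encodable.encode ((List.range (K (i + 1))).filterMap fun j =>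
      if K i ≤ j then some (a j, b j) else none)) =
      ⋃ j ∈ Finset.Ico (K i) (K (i + 1)), Ioo (a j : ℝ) (b j) := by
    rw [Op_encode]
    ext y
    simp only [List.mem_filterMap, List.mem_range, mem_iUnion, Finset.mem_Ico, exists_prop]
    constructor
    · rintro ⟨r, ⟨j, hj1, hj2⟩, hy⟩
      split_ifs at hj2 with h
      · cases hj2
        exact ⟨j, ⟨h, hj1⟩, hy⟩
    · rintro ⟨j, ⟨h1, h2⟩, hy⟩
      exact ⟨(a j, b j), ⟨j, h2, by rw [if_pos h1]⟩, hy⟩
  unfold C
  rw [if_pos]
  · rw [hOp]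
    simp only [mem_iUnion]
    exact ⟨j, Finset.mem_Ico.2 ⟨h1, h2⟩, hj⟩
  · rw [hOp]
    refine (measure_biUnion_finset_le _ _).trans ?_
    have e : Finset.Ico (K i) (K (i + 1)) =
        (Finset.range (K (i + 1) - K i)).map (addRightEmbedding (K i)) := by
      rw [Finset.range_eq_Ico, Finset.map_add_right_Ico, zero_add]
      congr 1
      omega
    rw [e, Finset.sum_map]
    exact (ENNReal.sum_le_tsum (f := fun j => w (j + K i)) _).trans (hblock i hik)

end Pool.Agent.W5h81.Loc
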