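import Mathlib

set_option autoImplicit false

/-!
# Localization forcing, regular open sets, complete subforcings: definitions
-/

namespace Pool.Agent.W5h81.Loc

/-- Conditions of localization forcing: `s` is a finite sequence of finite subsets of `ω`, the
`i`-th one with at most `i` elements, and `F` is a finite set of functions with at most `|s|`
elements. -/
structure Cond where
  s : List (Finset ℕ)
  F : Finset (ℕ → ℕ)
  small : ∀ (i : ℕ) (h : i < s.length), (s[i]).card ≤ i
  few : F.card ≤ s.length

/-- `(t, H) ≤ (s, F)`: `t` end-extends `s`, `F ⊆ H` and `f i ∈ t i` for all `f ∈ F` and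
`|s| ≤ i < |t|`. -/
instance : Preorder Cond where
  le q p := p.s <+: q.s ∧ p.F ⊆ q.F ∧
    ∀ f ∈ p.F, ∀ (i : ℕ) (h : i < q.s.length), p.s.length ≤ i → f i ∈ q.s[i]
  le_refl p := ⟨List.prefix_refl _, subset_rfl, fun f _ i h h' => absurd h (not_lt.2 h')⟩
  le_trans := by
    rintro a b c ⟨h1, h2, h3⟩ ⟨h4, h5, h6⟩
    refine ⟨h4.trans h1, h5.trans h2, fun f hf i hi hci => ?_⟩
    rcases lt_or_ge i b.s.length with h | h
    · have h7 := h6 f hf i h hci
      obtain ⟨t, ht⟩ := h1
      have : a.s[i] = b.s[i] := by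
        simp only [← ht]
        exact List.getElem_append_left h
      rw [this]
      exact h7
    · exact h3 f (h5 hf) i hi h

section forcing

variable {P : Type} [Preorder P]

/-- The complement in the algebra of regular open subsets of `P`. -/
def Neg (b : Set P) : Set P := {p | ∀ q ≤ p, q ∉ b}

/-- Regular open subsets of `P`: the elements of the algebra r.o.(P). -/
def RegOpen (b : Set P) : Prop := (∀ p ∈ b, ∀ q ≤ p, q ∈ b) ∧ Neg (Neg b) = b

/-- Complete subalgebras of the algebra of regular open subsets of `P` (the infimum of a family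
is its intersection). -/
structure CompleteSubalgebra (B : Set (Set P)) : Prop where
  reg : ∀ b ∈ B, RegOpen b
  neg : ∀ b ∈ B, Neg b ∈ B
  inter : ∀ S ⊆ B, ⋂₀ S ∈ B

/-- It is forced that `V[G ∩ B] ≠ V`: no condition forces that `G ∩ B` is a set `U` of the ground
model. -/
def ForcesNew (B : Set (Set P)) : Prop :=
  ∀ (U : Set (Set P)) (p : P), ∃ q ≤ p, ∃ b ∈ B, (b ∈ U ∧ q ∈ Neg b) ∨ (b ∉ U ∧ q ∈ b)

/-- For a name of an element `x` of `2 ^ ω`, given by the truth values `c n` of `x(n) = 1`, the
truth value of `t` being an initial segment of `x`. -/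
def val (c : ℕ → Set P) (t : List Bool) : Set P :=
  {p | ∀ (i : ℕ) (h : i < t.length), if t[i] then p ∈ c i else p ∈ Neg (c i)}

/-- `V[G ∩ B]` contains no Cohen real over `V`: for every `B`-name `x` of an element of `2 ^ ω` and
every condition `p` there is a dense subset `D` of `2 ^ (<ω)` such that some `q ≤ p` forces that no
initial segment of `x` is in `D`. -/
def NoCohen (B : Set (Set P)) : Prop :=
  ∀ c : ℕ → Set P, (∀ n, c n ∈ B) → ∀ p : P, ∃ D : Set (List Bool),
    (∀ t : List Bool, ∃ u ∈ D, t <+: u) ∧ ∃ q ≤ p, ∀ u ∈ D, q ∈ Neg (val c u)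

end forcing

end Pool.Agent.W5h81.Loc
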