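import Pool.Agent.W5h81.Loc.Rand

set_option autoImplicit false

/-!
# The subalgebra of localization forcing generated by a random real
-/

namespace Pool.Agent.W5h81.Loc

open Set MeasureTheory ENNReal TopologicalSpace

/-- The measure algebra of the unit interval, as a family of regular open sets. -/
def B : Set (Set Cond) := {b | ∃ E : Set ℝ, MeasurableSet E ∧ h E = b}

/-- Lebesgue measure on the unit interval. -/
noncomputable abbrev μ : Measure ℝ := volume.restrict (Icc 0 1)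

theorem exists_ess_inf (𝓔 : Set (Set ℝ)) (hne : 𝓔.Nonempty) (hm : ∀ E ∈ 𝓔, MeasurableSet E) :
    ∃ e : ℕ → Set ℝ, (∀ n, e n ∈ 𝓔) ∧ ∀ F ∈ 𝓔, μ ((⋂ n, e n) \ F) = 0 := by
  obtain ⟨E0, hE0⟩ := hne
  have : Nonempty (ℕ → 𝓔) := ⟨fun _ => ⟨E0, hE0⟩⟩
  set m : ℝ≥0∞ := ⨅ e : ℕ → 𝓔, μ (⋂ n, (e n).1) with hmdef
  have hmtop : m ≠ ∞ := ne_top_of_le_ne_top (measure_ne_top μ _) (iInf_le _ fun _ => ⟨E0, hE0⟩)
  have hk : ∀ k : ℕ, ∃ e : ℕ → 𝓔, μ (⋂ n, (e n).1) < m + ((k : ℝ≥0∞) + 1)⁻¹ := by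
    intro k
    have h1 : m < m + ((k : ℝ≥0∞) + 1)⁻¹ := by
      refine ENNReal.lt_add_right hmtop ?_
      simp
    rw [hmdef] at h1
    exact iInf_lt_iff.1 h1
  choose e he using hk
  set e' : ℕ → 𝓔 := fun n => e n.unpair.1 n.unpair.2 with he'
  have hle : ∀ k : ℕ, μ (⋂ n, (e' n).1) ≤ m + ((k : ℝ≥0∞) + 1)⁻¹ := by
    intro k
    refine (measure_mono ?_).trans (he k).le
    refine subset_iInter fun n => ?_
    have : (e' (Nat.pair k n)).1 = (e k n).1 := by simp [he']
    rw [← this]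
    exact iInter_subset _ _
  have hlim : μ (⋂ n, (e' n).1) ≤ m := by
    refine ge_of_tendsto' (f := fun k : ℕ => m + ((k : ℝ≥0∞) + 1)⁻¹) (x := Filter.atTop) ?_ hle
    have h1 : Filter.Tendsto (fun k : ℕ => ((k : ℝ≥0∞) + 1)⁻¹) Filter.atTop (nhds 0) := by
      have := (Filter.tendsto_add_atTop_iff_nat 1).2 ENNReal.tendsto_inv_nat_nhds_zero
      simpa using this
    simpa using (tendsto_const_nhds (x := m)).add h1
  refine ⟨fun n => (e' n).1, fun n => (e' n).2, fun F hF => ?_⟩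
  have h1 : m ≤ μ ((⋂ n, (e' n).1) ∩ F) := by
    refine (iInf_le _ (fun n => Nat.casesOn n (⟨F, hF⟩ : 𝓔) e')).trans (measure_mono ?_)
    intro z hz
    rw [mem_iInter] at hz
    exact ⟨mem_iInter.2 fun n => hz (n + 1), hz 0⟩
  have h2 := measure_inter_add_sdiff (μ := μ) (⋂ n, (e' n).1) (hm F hF)
  have h3 : μ ((⋂ n, (e' n).1) ∩ F) + μ ((⋂ n, (e' n).1) \ F) ≤ μ ((⋂ n, (e' n).1) ∩ F) + 0 := by
    rw [h2, add_zero]
    exact hlim.trans h1
  have h4 := (ENNReal.add_le_add_iff_left (measure_ne_top μ _)).1 h3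
  exact le_antisymm h4 zero_le

theorem complete_B : CompleteSubalgebra B where
  reg := by
    rintro _ ⟨E, hE, rfl⟩
    exact regOpen_h hE
  neg := by
    rintro _ ⟨E, hE, rfl⟩
    exact ⟨Eᶜ, hE.compl, (Neg_h hE).symm⟩
  inter := by
    intro S hS
    rcases S.eq_empty_or_nonempty with rfl | ⟨b0, hb0⟩
    · exact ⟨univ, MeasurableSet.univ, by rw [h_univ, sInter_empty]⟩
    · obtain ⟨E0, hE0, rfl⟩ := hS hb0
      obtain ⟨e, he, hF⟩ := exists_ess_inf {E | MeasurableSet E ∧ h E ∈ S} ⟨E0, hE0, hb0⟩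
        (fun E hE => hE.1)
      refine ⟨⋂ n, e n, MeasurableSet.iInter fun n => (he n).1, ?_⟩
      apply Subset.antisymm
      · refine subset_sInter fun b hb => ?_
        obtain ⟨F, hFm, rfl⟩ := hS hb
        exact h_mono_ae hFm (hF F ⟨hFm, hb⟩)
      · rw [h_iInter]
        exact subset_iInter fun n => sInter_subset_of_mem (he n).2

theorem not_decide (p : Cond) : ∃ E : Set ℝ, MeasurableSet E ∧ p ∉ h E ∧ p ∉ h Eᶜ := by
  by_contra hcon
  push Not at hcon
  set T : Set ℝ := {r | p ∈ h (Iic r)} with hT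
  have h1 : (1 : ℝ) ∈ T := by
    change p ∈ h (Iic 1)
    have : h univ ⊆ h (Iic (1 : ℝ)) := by
      rw [← h_unit univ]
      exact h_mono fun z hz => hz.2.2
    rw [h_univ] at this
    exact this (mem_univ _)
  have h0 : ∀ r ∈ T, 0 ≤ r := by
    intro r hr
    by_contra hc
    have h2 : p ∈ h (Iic r) := hr
    rw [← h_unit] at h2
    have h3 : Iic r ∩ Icc 0 1 = ∅ := by
      rw [eq_empty_iff_forall_notMem]
      rintro z ⟨hz1, hz2⟩
      exact hc (hz2.1.trans hz1)
    rw [h3] at h2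
    exact notMem_Pf_empty p h2
  set z := sInf T with hz
  have hup : ∀ n : ℕ, p ∈ h (Iic (z + 1 / ((n : ℝ) + 1))) := by
    intro n
    have hpos : (0 : ℝ) < 1 / ((n : ℝ) + 1) := by positivity
    obtain ⟨r, hr, hr2⟩ := exists_lt_of_csInf_lt ⟨1, h1⟩ (lt_add_of_pos_right z hpos)
    exact h_mono (Iic_subset_Iic.2 hr2.le) hr
  have hlow : ∀ n : ℕ, p ∈ h (Iic (z - 1 / ((n : ℝ) + 1)))ᶜ := by
    intro n
    have hpos : (0 : ℝ) < 1 / ((n : ℝ) + 1) := by positivity
    refine hcon _ measurableSet_Iic fun hc => ?_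
    have := csInf_le ⟨0, fun r hr => h0 r hr⟩ (show z - 1 / ((n : ℝ) + 1) ∈ T from hc)
    rw [← hz] at this
    linarith
  have hmem : p ∈ h (⋂ n : ℕ, (Iic (z + 1 / ((n : ℝ) + 1)) ∩ (Iic (z - 1 / ((n : ℝ) + 1)))ᶜ)) := by
    rw [h_iInter]
    refine mem_iInter.2 fun n => ?_
    rw [h_inter]
    exact ⟨hup n, hlow n⟩
  have hsub : (⋂ n : ℕ, (Iic (z + 1 / ((n : ℝ) + 1)) ∩ (Iic (z - 1 / ((n : ℝ) + 1)))ᶜ)) ⊆ {z} := by
    intro y hy
    rw [mem_iInter] at hy
    have ha : ∀ n : ℕ, |y - z| ≤ 1 / ((n : ℝ) + 1) := by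
      intro n
      have h5 := (hy n).1
      have h6 := (hy n).2
      simp only [mem_Iic, mem_compl_iff, not_le] at h5 h6
      rw [abs_le]
      exact ⟨by linarith, by linarith⟩
    have hb : |y - z| ≤ 0 := by
      refine le_of_forall_pos_le_add fun ε hε => ?_
      obtain ⟨n, hn⟩ := exists_nat_one_div_lt hε
      linarith [ha n]
    have := abs_nonpos_iff.1 hb
    rw [mem_singleton_iff]
    linarith
  have hnull : volume (⋂ n : ℕ, (Iic (z + 1 / ((n : ℝ) + 1)) ∩ (Iic (z - 1 / ((n : ℝ) + 1)))ᶜ)) = 0 :=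
    measure_mono_null hsub (by simp)
  rw [h_null hnull] at hmem
  exact hmem

theorem nontrivial_B : ForcesNew B := by
  intro U p
  by_contra hcon
  push Not at hcon
  obtain ⟨E, hE, h1, h2⟩ := not_decide p
  by_cases hU : h E ∈ U
  · apply h1
    rw [← (regOpen_h hE).2]
    intro q hq
    exact (hcon q hq (h E) ⟨E, hE, rfl⟩).1 hU
  · apply h2
    rw [← Neg_h hE]
    intro q hq
    exact (hcon q hq (h E) ⟨E, hE, rfl⟩).2 hU

/-- The Borel set which gives the truth value of `t` being an initial segment of a real. -/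
def Et (E : ℕ → Set ℝ) (t : List Bool) : Set ℝ :=
  ⋂ i, {z | ∀ h : i < t.length, if t[i] then z ∈ E i else z ∉ E i}

theorem measurable_Et {E : ℕ → Set ℝ} (hE : ∀ n, MeasurableSet (E n)) (t : List Bool) :
    MeasurableSet (Et E t) := by
  refine MeasurableSet.iInter fun i => ?_
  by_cases h : i < t.length
  · simp only [h, forall_true_left]
    by_cases ht : t[i] = true
    · simp only [ht, if_true]
      exact hE i
    · simp only [ht]
      exact (hE i).compl
  · simp only [h, IsEmpty.forall_iff]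
    exact MeasurableSet.univ

theorem val_eq {E : ℕ → Set ℝ} (hE : ∀ n, MeasurableSet (E n)) (t : List Bool) :
    val (fun n => h (E n)) t = h (Et E t) := by
  unfold Et
  rw [h_iInter]
  ext p
  simp only [val, mem_ofPred_eq, mem_iInter]
  refine forall_congr' fun i => ?_
  by_cases hi : i < t.length
  · simp only [hi, forall_true_left]
    by_cases ht : t[i] = true
    · simp only [ht, if_true]
      rfl
    · simp only [ht]
      rw [Neg_h (hE i)]
      rfl
  · simp only [hi, IsEmpty.forall_iff, true_iff]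
    have : h {z : ℝ | True} = univ := h_univ
    rw [this]
    exact mem_univ _

theorem Et_snoc (E : ℕ → Set ℝ) (t : List Bool) (b : Bool) (z : ℝ) (hz : z ∈ Et E (t ++ [b])) :
    z ∈ Et E t ∧ if b then z ∈ E t.length else z ∉ E t.length := by
  unfold Et at *
  rw [mem_iInter] at *
  constructor
  · intro i h
    have := hz i (by simp; omega)
    simpa [List.getElem_append_left h] using this
  · have := hz t.length (by simp)
    simpa using this

theorem exists_ext {E : ℕ → Set ℝ} (hE : ∀ n, MeasurableSet (E n)) (t : List Bool) (n : ℕ) :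
    ∃ u, t <+: u ∧ μ (Et E u) ≤ (2⁻¹) ^ n := by
  induction n with
  | zero =>
    refine ⟨t, List.prefix_refl _, ?_⟩
    rw [pow_zero]
    refine (measure_mono (subset_univ _)).trans ?_
    simp
  | succ n ih =>
    obtain ⟨u, htu, hu⟩ := ih
    have hd : Disjoint (Et E (u ++ [true])) (Et E (u ++ [false])) := by
      rw [disjoint_left]
      intro z h1 h2
      have h3 := (Et_snoc E u true z h1).2
      have h4 := (Et_snoc E u false z h2).2
      simp only [if_true] at h3
      simp only [Bool.false_eq_true, if_false] at h4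
      exact h4 h3
    have hsum : μ (Et E (u ++ [true])) + μ (Et E (u ++ [false])) ≤ (2⁻¹) ^ n := by
      rw [← measure_union hd (measurable_Et hE _)]
      refine (measure_mono ?_).trans hu
      rintro z (hz | hz)
      · exact (Et_snoc E u true z hz).1
      · exact (Et_snoc E u false z hz).1
    by_cases hT : μ (Et E (u ++ [true])) ≤ (2⁻¹) ^ (n + 1)
    · exact ⟨_, htu.trans (List.prefix_append _ _), hT⟩
    · refine ⟨_, htu.trans (List.prefix_append _ [false]), ?_⟩
      by_contra hF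
      push Not at hT hF
      have h5 := ENNReal.add_lt_add hT hF
      rw [pow_succ, ← mul_add, ENNReal.inv_two_add_inv_two, mul_one] at h5
      exact absurd hsum (not_le.2 h5)

theorem noCohen_B : NoCohen B := by
  intro c hc p
  choose E hE hcE using hc
  have hc' : c = fun n => h (E n) := funext fun n => (hcE n).symm
  subst hc'
  have hk : ∀ k : ℕ, ∃ u : List Bool → List Bool, (∀ t, t <+: u t) ∧
      μ (⋃ t, Et E (u t)) ≤ (2⁻¹) ^ k := by
    intro k
    have hpos : (2⁻¹ : ℝ≥0∞) ^ k ≠ 0 := by simp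
    obtain ⟨ε, hε, hsum⟩ := ENNReal.exists_pos_sum_of_countable' hpos (List Bool)
    have : ∀ t, ∃ u, t <+: u ∧ μ (Et E u) ≤ ε t := by
      intro t
      obtain ⟨n, hn⟩ := ENNReal.exists_inv_two_pow_lt (hε t).ne'
      obtain ⟨u, h1, h2⟩ := exists_ext hE t n
      exact ⟨u, h1, h2.trans hn.le⟩
    choose u hu1 hu2 using this
    exact ⟨u, hu1, (measure_iUnion_le _).trans ((ENNReal.tsum_le_tsum hu2).trans hsum.le)⟩
  choose u hu1 hu2 using hk
  have hnull : μ (⋂ k, ⋃ t, Et E (u k t)) = 0 := by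
    by_contra hne
    obtain ⟨k, hk⟩ := ENNReal.exists_inv_two_pow_lt hne
    exact absurd ((measure_mono (iInter_subset _ k)).trans (hu2 k)) (not_le.2 hk)
  have hmeas : ∀ k, MeasurableSet (⋃ t, Et E (u k t)) :=
    fun k => MeasurableSet.iUnion fun t => measurable_Et hE _
  have hempty : h (⋂ k, ⋃ t, Et E (u k t)) = ∅ := by
    have h1 : h (⋂ k, ⋃ t, Et E (u k t)) ⊆ h ∅ :=
      h_mono_ae MeasurableSet.empty (by rw [sdiff_empty]; exact hnull)
    rw [eq_empty_iff_forall_notMem]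
    intro q hq
    exact notMem_Pf_empty q (by simpa [h] using h1 hq)
  have hp : ∃ k, p ∉ h (⋃ t, Et E (u k t)) := by
    by_contra hcon
    push Not at hcon
    have h1 : p ∈ h (⋂ k, ⋃ t, Et E (u k t)) := by
      rw [h_iInter]
      exact mem_iInter.2 hcon
    rw [hempty] at h1
    exact h1
  obtain ⟨k, hk⟩ := hp
  refine ⟨range (u k), fun t => ⟨u k t, mem_range_self t, hu1 k t⟩, ?_⟩
  have h1 : ∃ q ≤ p, q ∈ Neg (h (⋃ t, Et E (u k t))) := by
    by_contra hne
    push Not at hne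
    apply hk
    rw [← (regOpen_h (hmeas k)).2]
    exact hne
  obtain ⟨q, hq, hq2⟩ := h1
  refine ⟨q, hq, ?_⟩
  rintro _ ⟨t, rfl⟩
  rw [val_eq hE, Neg_h (measurable_Et hE _)]
  rw [Neg_h (hmeas k)] at hq2
  exact h_mono (compl_subset_compl.2 (subset_iUnion (fun t => Et E (u k t)) t)) hq2

end Pool.Agent.W5h81.Loc
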