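import Pool.Agent.W5h81.Loc.Space
import Pool.Agent.W5h81.Loc.Cover

set_option autoImplicit false

/-!
# The real added by a slalom
-/

namespace Pool.Agent.W5h81.Loc

open Set MeasureTheory ENNReal TopologicalSpace

/-- The small open set given by a slalom. -/
def U (φ : Sl) : Set ℝ := ⋃ n, ⋃ m ∈ φ.1 n, C n m

theorem isOpen_U (φ : Sl) : IsOpen (U φ) :=
  isOpen_iUnion fun n => isOpen_biUnion fun m _ => isOpen_C n m

theorem volume_U (φ : Sl) : volume (U φ) ≤ 1 / 2 := by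
  have h1 : ∀ n, volume (⋃ m ∈ φ.1 n, C n m) ≤ (1 / 2) ^ (n + 2) := by
    intro n
    calc volume (⋃ m ∈ φ.1 n, C n m) ≤ ∑ m ∈ φ.1 n, volume (C n m) := measure_biUnion_finset_le _ _
      _ ≤ ∑ _m ∈ φ.1 n, del n := Finset.sum_le_sum fun m _ => volume_C n m
      _ = (φ.1 n).card * del n := by rw [Finset.sum_const, nsmul_eq_mul]
      _ ≤ (n + 1) * del n := by
        gcongr
        exact_mod_cast (φ.2 n).trans (Nat.le_succ n)
      _ = (1 / 2) ^ (n + 2) := by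
        unfold del
        refine ENNReal.mul_div_cancel ?_ ?_
        · simp
        · exact ENNReal.add_ne_top.2 ⟨ENNReal.natCast_ne_top n, ENNReal.one_ne_top⟩
  calc volume (U φ) ≤ ∑' n, volume (⋃ m ∈ φ.1 n, C n m) := measure_iUnion_le _
    _ ≤ ∑' n, (1 / 2 : ℝ≥0∞) ^ (n + 2) := ENNReal.tsum_le_tsum h1
    _ = 1 / 2 := by
      simp only [pow_add, one_div]
      rw [ENNReal.tsum_mul_right, ENNReal.tsum_geometric, ENNReal.one_sub_inv_two, inv_inv, sq,
        ← mul_assoc, ENNReal.mul_inv_cancel (by simp) (by simp), one_mul]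

/-- The real added by the slalom. -/
noncomputable def x (φ : Sl) : ℝ := sInf (Icc 0 1 \ U φ)

theorem x_mem (φ : Sl) : x φ ∈ Icc (0 : ℝ) 1 \ U φ := by
  have hcl : IsClosed (Icc (0 : ℝ) 1 \ U φ) := isClosed_Icc.sdiff (isOpen_U φ)
  refine hcl.csInf_mem ?_ ⟨0, fun y hy => hy.1.1⟩
  by_contra h
  rw [not_nonempty_iff_eq_empty, sdiff_eq_empty] at h
  have h1 := measure_mono (μ := volume) h
  rw [Real.volume_Icc] at h1
  have h2 := h1.trans (volume_U φ)
  norm_num at h2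

theorem x_le {φ : Sl} {z : ℝ} (h : z ∈ Icc (0 : ℝ) 1 \ U φ) : x φ ≤ z :=
  csInf_le ⟨0, fun _ hy => hy.1.1⟩ h

theorem isOpen_lt (r : ℝ) : IsOpen {φ : Sl | r < x φ} := by
  rw [basis.isOpen_iff]
  intro φ hφ
  have hφ' : r < x φ := hφ
  have hsub : Icc 0 r ⊆ ⋃ k, ⋃ n ∈ Finset.range k, ⋃ m ∈ φ.1 n, C n m := by
    intro z hz
    have h1 : z ∈ U φ := by
      by_contra hc
      have := x_le ⟨⟨hz.1, by linarith [hz.2, (x_mem φ).1.2]⟩, hc⟩
      linarith [hz.2]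
    obtain ⟨n, hn⟩ := mem_iUnion.1 h1
    exact mem_iUnion.2 ⟨n + 1, mem_iUnion₂.2 ⟨n, by simp, hn⟩⟩
  obtain ⟨t, ht⟩ := isCompact_Icc.elim_finite_subcover
    (fun k => ⋃ n ∈ Finset.range k, ⋃ m ∈ φ.1 n, C n m)
    (fun k => isOpen_biUnion fun n _ => isOpen_biUnion fun m _ => isOpen_C n m) hsub
  set k := t.sup id with hk
  have ht' : Icc 0 r ⊆ ⋃ n ∈ Finset.range k, ⋃ m ∈ φ.1 n, C n m := by
    intro z hz
    obtain ⟨k', hk', hz'⟩ := mem_iUnion₂.1 (ht hz)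
    obtain ⟨n, hn, hz''⟩ := mem_iUnion₂.1 hz'
    have : k' ≤ k := Finset.le_sup (f := id) hk'
    exact mem_iUnion₂.2 ⟨n, Finset.mem_range.2 ((Finset.mem_range.1 hn).trans_le this), hz''⟩
  have hk0 : (∅ : Finset (ℕ → ℕ)).card ≤ k := Nat.zero_le k
  refine ⟨N (cut φ ∅ k hk0), ⟨_, rfl⟩, mem_cut _ (by simp), fun ψ hψ => ?_⟩
  have heq : ∀ n < k, ψ.1 n = φ.1 n := by
    intro n hn
    have := hψ.1 n (by rw [cut_len]; exact hn)
    rw [this]
    simp [cut]
  change r < x ψ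
  by_contra hc
  have h1 : x ψ ∈ Icc 0 r := ⟨(x_mem ψ).1.1, not_lt.1 hc⟩
  obtain ⟨n, hn, hz⟩ := mem_iUnion₂.1 (ht' h1)
  apply (x_mem ψ).2
  rw [← heq n (Finset.mem_range.1 hn)] at hz
  exact mem_iUnion.2 ⟨n, hz⟩

instance : MeasurableSpace Sl := borel Sl

instance : BorelSpace Sl := ⟨rfl⟩

theorem measurable_x : Measurable x :=
  measurable_of_Ioi fun r => (isOpen_lt r).measurableSet

/-- Null sets of reals are avoided densely. -/
theorem exists_avoid {E : Set ℝ} (hE : volume E = 0) (p : Cond) :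
    ∃ q ≤ p, N q ∩ x ⁻¹' E = ∅ := by
  classical
  obtain ⟨f, hf⟩ := exists_C_cover hE (p.s.length + 1)
  obtain ⟨φ, hφ⟩ := N_nonempty p
  have hcard : (insert f p.F).card ≤ p.s.length + 1 :=
    (Finset.card_insert_le _ _).trans (Nat.succ_le_succ p.few)
  refine ⟨cut φ (insert f p.F) (p.s.length + 1) hcard,
    cut_le hφ hcard (Finset.subset_insert _ _) (Nat.le_succ _), ?_⟩
  rw [eq_empty_iff_forall_notMem]
  rintro ψ ⟨h1, h2⟩
  obtain ⟨i, hi, hz⟩ := hf _ h2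
  apply (x_mem ψ).2
  have h3 := h1.2 f (by simp [cut]) i (by rw [cut_len]; exact hi)
  exact mem_iUnion.2 ⟨i, mem_iUnion₂.2 ⟨_, h3, hz⟩⟩

/-- The conditions which force (in the sense of category) a set of slaloms. -/
def Pf (A : Set Sl) : Set Cond := {p | IsMeagre (N p \ A)}

theorem Pf_mono {A B : Set Sl} (h : A ⊆ B) : Pf A ⊆ Pf B :=
  fun _ hp => IsMeagre.mono (sdiff_subset_sdiff_right h) hp

theorem Pf_anti {A : Set Sl} {p q : Cond} (hq : q ≤ p) (hp : p ∈ Pf A) : q ∈ Pf A :=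
  IsMeagre.mono (sdiff_subset_sdiff_left (N_anti hq)) hp

theorem notMem_Pf_empty (p : Cond) : p ∉ Pf ∅ := by
  intro h
  have h' : IsMeagre (N p \ ∅) := h
  rw [sdiff_empty] at h'
  exact not_isMeagre_of_isOpen (isOpen_N p) (N_nonempty p) h'

theorem Pf_iInter (A : ℕ → Set Sl) : Pf (⋂ n, A n) = ⋂ n, Pf (A n) := by
  ext p
  simp only [Pf, mem_ofPred_eq, mem_iInter, sdiff_iInter]
  exact ⟨fun h n => IsMeagre.mono (subset_iUnion (fun n => N p \ A n) n) h, isMeagre_iUnion⟩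

theorem Pf_inter (A B : Set Sl) : Pf (A ∩ B) = Pf A ∩ Pf B := by
  ext p
  simp only [Pf, mem_ofPred_eq, mem_inter_iff, sdiff_inter]
  exact ⟨fun h => ⟨IsMeagre.mono subset_union_left h, IsMeagre.mono subset_union_right h⟩,
    fun h => h.1.union h.2⟩

theorem Neg_Pf {A : Set Sl} (hA : BaireMeasurableSet A) : Neg (Pf A) = Pf Aᶜ := by
  ext p
  constructor
  · intro h
    obtain ⟨O, hO, hAO⟩ := hA.residualEq_isOpen
    have hm : IsMeagre (symmDiff A O) := by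
      have : {z | (z ∈ A) = (z ∈ O)} ∈ residual Sl := hAO
      refine Filter.mem_of_superset this ?_
      intro z hz
      simp only [mem_ofPred_eq, eq_iff_iff] at hz
      simp only [mem_compl_iff, mem_symmDiff]
      tauto
    change IsMeagre (N p \ Aᶜ)
    rw [sdiff_compl]
    by_cases hne : (N p ∩ O).Nonempty
    · exfalso
      obtain ⟨φ, h1, h2⟩ := hne
      obtain ⟨q, hq, -, h3, -⟩ := exists_le h1 hO h2 0
      refine h q hq (IsMeagre.mono ?_ hm)
      intro ψ hψ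
      exact mem_symmDiff.2 (Or.inr ⟨h3 hψ.1, hψ.2⟩)
    · refine IsMeagre.mono ?_ hm
      intro ψ hψ
      refine mem_symmDiff.2 (Or.inl ⟨hψ.2, fun h4 => hne ⟨ψ, hψ.1, h4⟩⟩)
  · intro h q hq hqA
    have h1 : q ∈ Pf (Aᶜ ∩ A) := by
      rw [Pf_inter]
      exact ⟨Pf_anti hq h, hqA⟩
    rw [compl_inter_self] at h1
    exact notMem_Pf_empty q h1

/-- The homomorphism of the Borel sets of reals into the regular open algebra. -/
def h (E : Set ℝ) : Set Cond := Pf (x ⁻¹' E)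

theorem baire_x {E : Set ℝ} (hE : MeasurableSet E) : BaireMeasurableSet (x ⁻¹' E) :=
  (measurable_x hE).baireMeasurableSet

theorem Neg_h {E : Set ℝ} (hE : MeasurableSet E) : Neg (h E) = h Eᶜ := by
  rw [h, Neg_Pf (baire_x hE)]
  rfl

theorem regOpen_h {E : Set ℝ} (hE : MeasurableSet E) : RegOpen (h E) := by
  refine ⟨fun p hp q hq => Pf_anti hq hp, ?_⟩
  rw [Neg_h hE, Neg_h hE.compl, compl_compl]

theorem h_iInter (E : ℕ → Set ℝ) : h (⋂ n, E n) = ⋂ n, h (E n) := by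
  unfold h
  rw [preimage_iInter, Pf_iInter]

theorem h_inter (E F : Set ℝ) : h (E ∩ F) = h E ∩ h F := by
  unfold h
  rw [preimage_inter, Pf_inter]

theorem h_mono {E F : Set ℝ} (hEF : E ⊆ F) : h E ⊆ h F := Pf_mono (preimage_mono hEF)

theorem h_null {E : Set ℝ} (hE : volume E = 0) : h E = ∅ := by
  rw [eq_empty_iff_forall_notMem]
  intro p hp
  obtain ⟨q, hq, hqE⟩ := exists_avoid hE p
  have h1 : q ∈ Pf (x ⁻¹' E) := Pf_anti hq hp
  have h2 : IsMeagre (N q \ x ⁻¹' E) := h1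
  have h3 : N q \ x ⁻¹' E = N q := by
    rw [sdiff_eq_self_iff_disjoint, disjoint_iff_inter_eq_empty, inter_comm]
    exact hqE
  rw [h3] at h2
  exact not_isMeagre_of_isOpen (isOpen_N q) (N_nonempty q) h2

theorem h_univ : h univ = univ := by
  refine eq_univ_of_forall fun p => ?_
  change IsMeagre (N p \ x ⁻¹' univ)
  rw [preimage_univ, sdiff_univ]
  exact IsMeagre.empty

theorem h_unit (E : Set ℝ) : h (E ∩ Icc 0 1) = h E := by
  have : x ⁻¹' (E ∩ Icc 0 1) = x ⁻¹' E := by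
    ext φ
    exact ⟨fun hφ => hφ.1, fun hφ => ⟨hφ, (x_mem φ).1⟩⟩
  unfold h
  rw [this]

/-- `h` respects inclusion modulo null sets. -/
theorem h_mono_ae {E F : Set ℝ} (hF : MeasurableSet F)
    (hEF : volume.restrict (Icc 0 1) (E \ F) = 0) : h E ⊆ h F := by
  rw [Measure.restrict_apply' measurableSet_Icc] at hEF
  intro p hp
  by_contra hc
  have h1 : ∃ q ≤ p, q ∈ Neg (h F) := by
    by_contra hne
    push Not at hne
    apply hc
    rw [← (regOpen_h hF).2]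
    exact hne
  obtain ⟨q, hq, h2⟩ := h1
  rw [Neg_h hF] at h2
  have h3 : q ∈ h (E ∩ Fᶜ) := by
    rw [h_inter]
    exact ⟨Pf_anti hq hp, h2⟩
  rw [← Set.sdiff_eq, ← h_unit, h_null hEF] at h3
  exact h3

end Pool.Agent.W5h81.Loc
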