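import Pool.Agent.W5h81.Loc.Defs

set_option autoImplicit false

/-!
# The Baire space of slaloms
-/

namespace Pool.Agent.W5h81.Loc

open Set TopologicalSpace

/-- Slaloms. -/
def Sl : Type := {φ : ℕ → Finset ℕ // ∀ i, (φ i).card ≤ i}

/-- Slaloms compatible with a condition. -/
def N (p : Cond) : Set Sl :=
  {φ | (∀ (i : ℕ) (h : i < p.s.length), φ.1 i = p.s[i]) ∧
    ∀ f ∈ p.F, ∀ i, p.s.length ≤ i → f i ∈ φ.1 i}

theorem N_nonempty (p : Cond) : (N p).Nonempty := by
  classical
  refine ⟨⟨fun i => if h : i < p.s.length then p.s[i] else p.F.image fun f => f i, ?_⟩, ?_, ?_⟩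
  · intro i
    by_cases h : i < p.s.length
    · simp only [h, dif_pos]
      exact p.small i h
    · simp only [h, dif_neg, not_false_eq_true]
      exact Finset.card_image_le.trans (p.few.trans (not_lt.1 h))
  · intro i h
    simp [h]
  · intro f hf i hi
    simp only [not_lt.2 hi, dif_neg, not_false_eq_true]
    exact Finset.mem_image_of_mem _ hf

theorem getElem_of_prefix {a b : List (Finset ℕ)} (h : a <+: b) (i : ℕ) (hi : i < a.length) :
    b[i]'(hi.trans_le h.length_le) = a[i] := by
  obtain ⟨t, ht⟩ := h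
  simp only [← ht]
  exact List.getElem_append_left hi

theorem N_anti {p q : Cond} (h : q ≤ p) : N q ⊆ N p := by
  obtain ⟨h1, h2, h3⟩ := h
  rintro φ ⟨ha, hb⟩
  refine ⟨fun i hi => ?_, fun f hf i hi => ?_⟩
  · rw [ha i (hi.trans_le h1.length_le), getElem_of_prefix h1]
  · rcases lt_or_ge i q.s.length with h | h
    · rw [ha i h]
      exact h3 f hf i h hi
    · exact hb f (h2 hf) i h

/-- The condition given by an initial segment of a slalom and a finite set of functions. -/
noncomputable def cut (φ : Sl) (F : Finset (ℕ → ℕ)) (m : ℕ) (hF : F.card ≤ m) : Cond where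
  s := (List.range m).map φ.1
  F := F
  small i h := by
    simp only [List.getElem_map, List.getElem_range]
    exact φ.2 i
  few := by simpa using hF

theorem cut_len (φ : Sl) (F : Finset (ℕ → ℕ)) (m : ℕ) (hF : F.card ≤ m) :
    (cut φ F m hF).s.length = m := by simp [cut]

theorem cut_le {φ : Sl} {p : Cond} (hφ : φ ∈ N p) {F : Finset (ℕ → ℕ)} {m : ℕ} (hF : F.card ≤ m)
    (h1 : p.F ⊆ F) (h2 : p.s.length ≤ m) : cut φ F m hF ≤ p := by
  refine ⟨?_, h1, fun f hf i hi hpi => ?_⟩
  · rw [List.prefix_iff_getElem]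
    refine ⟨by rw [cut_len]; exact h2, fun i hi => ?_⟩
    simp only [cut, List.getElem_map, List.getElem_range]
    exact (hφ.1 i hi).symm
  · simp only [cut, List.getElem_map, List.getElem_range]
    exact hφ.2 f hf i hpi

theorem mem_cut {φ : Sl} {F : Finset (ℕ → ℕ)} {m : ℕ} (hF : F.card ≤ m)
    (h : ∀ f ∈ F, ∀ i, m ≤ i → f i ∈ φ.1 i) : φ ∈ N (cut φ F m hF) := by
  refine ⟨fun i hi => by simp [cut], fun f hf i hi => ?_⟩
  rw [cut_len] at hi
  exact h f hf i hi

instance : TopologicalSpace Sl := generateFrom (range N)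

theorem basis : IsTopologicalBasis (range N) where
  exists_subset_inter := by
    classical
    rintro _ ⟨p, rfl⟩ _ ⟨q, rfl⟩ φ ⟨hp, hq⟩
    set m := max (max p.s.length q.s.length) (p.F ∪ q.F).card with hm
    have h1 : (p.F ∪ q.F).card ≤ m := le_max_right _ _
    have h2 : p.s.length ≤ m := (le_max_left _ _).trans (le_max_left _ _)
    have h3 : q.s.length ≤ m := (le_max_right _ _).trans (le_max_left _ _)
    refine ⟨_, ⟨cut φ (p.F ∪ q.F) m h1, rfl⟩, mem_cut h1 fun f hf i hi => ?_, ?_⟩
    · rcases Finset.mem_union.1 hf with h | h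
      · exact hp.2 f h i (h2.trans hi)
      · exact hq.2 f h i (h3.trans hi)
    · exact subset_inter (N_anti (cut_le hp h1 Finset.subset_union_left h2))
        (N_anti (cut_le hq h1 Finset.subset_union_right h3))
  sUnion_eq := by
    refine eq_univ_of_forall fun φ => ?_
    exact ⟨_, ⟨cut φ ∅ 0 (by simp), rfl⟩, mem_cut _ (by simp)⟩
  eq_generateFrom := rfl

theorem isOpen_N (p : Cond) : IsOpen (N p) := basis.isOpen ⟨p, rfl⟩

/-- Every neighbourhood of a point of `N p` contains `N q ∋ φ` for some `q ≤ p`, with `|s_q|` as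
large as one likes. -/
theorem exists_le {p : Cond} {φ : Sl} (hφ : φ ∈ N p) {O : Set Sl} (hO : IsOpen O) (h : φ ∈ O)
    (k : ℕ) : ∃ q ≤ p, φ ∈ N q ∧ N q ⊆ O ∧ k ≤ q.s.length := by
  classical
  obtain ⟨_, ⟨r, rfl⟩, hr, hrO⟩ := basis.exists_subset_of_mem_open h hO
  set m := max k (max (max p.s.length r.s.length) (p.F ∪ r.F).card) with hm
  have h0 : k ≤ m := le_max_left _ _
  have h1 : (p.F ∪ r.F).card ≤ m := (le_max_right _ _).trans (le_max_right _ _)
  have h2 : p.s.length ≤ m := ((le_max_left _ _).trans (le_max_left _ _)).trans (le_max_right _ _)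
  have h3 : r.s.length ≤ m := ((le_max_right _ _).trans (le_max_left _ _)).trans (le_max_right _ _)
  refine ⟨cut φ (p.F ∪ r.F) m h1, cut_le hφ h1 Finset.subset_union_left h2,
    mem_cut h1 fun f hf i hi => ?_,
    (N_anti (cut_le hr h1 Finset.subset_union_right h3)).trans hrO, by rw [cut_len]; exact h0⟩
  rcases Finset.mem_union.1 hf with h | h
  · exact hφ.2 f h i (h2.trans hi)
  · exact hr.2 f h i (h3.trans hi)

/-- The limit of a decreasing sequence of conditions. -/
theorem exists_limit (p : ℕ → Cond) (h : ∀ n, p (n + 1) ≤ p n) (hl : ∀ n, n ≤ (p n).s.length) :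
    ∃ φ, ∀ n, φ ∈ N (p n) := by
  have hmono : ∀ m n, m ≤ n → p n ≤ p m := by
    intro m n hmn
    induction n, hmn using Nat.le_induction with
    | base => exact le_rfl
    | succ n _ ih => exact (h n).trans ih
  have key : ∀ m n i (h1 : i < (p m).s.length) (h2 : i < (p n).s.length),
      (p m).s[i] = (p n).s[i] := by
    intro m n i h1 h2
    rcases le_total m n with hmn | hmn
    · exact (getElem_of_prefix (hmono m n hmn).1 i h1).symm
    · exact getElem_of_prefix (hmono n m hmn).1 i h2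
  have hlt : ∀ i, i < (p (i + 1)).s.length := fun i => hl (i + 1)
  refine ⟨⟨fun i => (p (i + 1)).s[i]'(hlt i), fun i => (p (i + 1)).small i (hlt i)⟩, fun n => ⟨?_, ?_⟩⟩
  · intro i hi
    exact key _ _ i _ hi
  · intro f hf i hi
    have h1 := hmono n (max n (i + 1)) (le_max_left _ _)
    have h2 := h1.2.2 f hf i ((hl _).trans_lt' (lt_of_lt_of_le (Nat.lt_succ_self i) (le_max_right _ _)))
      hi
    have h3 := key (i + 1) (max n (i + 1)) i (hlt i)
      ((hl _).trans_lt' (lt_of_lt_of_le (Nat.lt_succ_self i) (le_max_right _ _)))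
    change f i ∈ (p (i + 1)).s[i]'(hlt i)
    rw [h3]
    exact h2

instance : BaireSpace Sl where
  baire_property f ho hd := by
    rw [basis.dense_iff]
    rintro _ ⟨p, rfl⟩ -
    have step : ∀ (n : ℕ) (q : Cond), ∃ r ≤ q, N r ⊆ f n ∧ n + 1 ≤ r.s.length := by
      intro n q
      obtain ⟨φ, h1, h2⟩ := (hd n).inter_open_nonempty _ (isOpen_N q) (N_nonempty q)
      obtain ⟨r, h3, -, h4, h5⟩ := exists_le h1 (ho n) h2 (n + 1)
      exact ⟨r, h3, h4, h5⟩
    choose g hg1 hg2 hg3 using step
    let s : ℕ → Cond := fun n => Nat.rec p (fun n q => g n q) n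
    have hs : ∀ n, s (n + 1) = g n (s n) := fun n => rfl
    obtain ⟨φ, hφ⟩ := exists_limit s (fun n => by rw [hs]; exact hg1 _ _) (fun n => by
      cases n with
      | zero => exact Nat.zero_le _
      | succ n => rw [hs]; exact hg3 _ _)
    refine ⟨φ, hφ 0, mem_iInter.2 fun n => ?_⟩
    have := hφ (n + 1)
    rw [hs] at this
    exact hg2 _ _ this

end Pool.Agent.W5h81.Loc
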